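import Pool.Agent.helper80.SG.Spec2

set_option autoImplicit false
set_option linter.unusedSectionVars false

namespace Pool.Agent.SG

open MvPolynomial Module Pool.Agent.SV

theorem MNM_rank {E F : Type} [AddCommGroup E] [Module ℂ E] [Module.Finite ℂ E] [AddCommGroup F]
    [Module ℂ F] (K : Submodule ℂ E) (φ : E →ₗ[ℂ] F) :
    finrank ℂ K = finrank ℂ (K ⊓ LinearMap.ker φ : Submodule ℂ E) +
      finrank ℂ (Submodule.map φ K) := by
  have h1 := LinearMap.finrank_range_add_finrank_ker (φ.domRestrict K)
  have h2 : LinearMap.range (φ.domRestrict K) = Submodule.map φ K := LinearMap.range_domRestrict K φ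
  have h3 : finrank ℂ (LinearMap.ker (φ.domRestrict K)) =
      finrank ℂ (K ⊓ LinearMap.ker φ : Submodule ℂ E) := by
    rw [LinearMap.ker_domRestrict]
    have h4 : Submodule.map K.subtype (Submodule.comap K.subtype (LinearMap.ker φ)) =
        K ⊓ LinearMap.ker φ := by
      rw [Submodule.map_comap_subtype]
    rw [← h4]
    exact (LinearEquiv.finrank_eq (Submodule.equivMapOfInjective K.subtype
      K.injective_subtype _))
  rw [h2, h3] at h1
  omega

section

variable {τ E P J : Type} [DecidableEq τ] [AddCommGroup E] [Module ℂ E] [AddCommGroup P] [Module ℂ P]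

theorem MNM_insert (Φ : τ → P → E →ₗ[ℂ] (J → ℂ)) (x : τ → ℕ → P) (R : τ → Finset ℕ) (o : τ) (i : ℕ) :
    KerS Φ (Function.update R o (insert i (R o))) x = KerS Φ R x ⊓ LinearMap.ker (Φ o (x o i)) := by
  ext v
  rw [Submodule.mem_inf, mem_KerS, mem_KerS, LinearMap.mem_ker]
  constructor
  · intro h
    refine ⟨fun t j hj => h t j ?_, h o i ?_⟩
    · by_cases hto : t = o
      · subst hto
        rw [Function.update_self]
        exact Finset.mem_insert_of_mem hj
      · rw [Function.update_of_ne hto]
        exact hj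
    · rw [Function.update_self]
      exact Finset.mem_insert_self _ _
  · rintro ⟨h1, h2⟩ t j hj
    by_cases hto : t = o
    · subst hto
      rw [Function.update_self, Finset.mem_insert] at hj
      rcases hj with rfl | hj
      · exact h2
      · exact h1 t j hj
    · rw [Function.update_of_ne hto] at hj
      exact h1 t j hj

theorem MNM_mono (Φ : τ → P → E →ₗ[ℂ] (J → ℂ)) (x : τ → ℕ → P) (R R' : τ → Finset ℕ) (h : ∀ t, R t ⊆ R' t) :
    KerS Φ R' x ≤ KerS Φ R x := by
  intro v hv
  rw [mem_KerS] at hv ⊢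
  exact fun t i hi => hv t i (h t hi)

theorem MNM_cc [Module.Finite ℂ E] (Φ : τ → P → E →ₗ[ℂ] (J → ℂ)) (n : ℕ) (x : τ → ℕ → P)
    (hU : UniM Φ n x) (R : τ → Finset ℕ) (hR : ∀ t, R t ⊆ Finset.range n) (o : τ) (i : ℕ) (hi : i < n)
    (hio : i ∉ R o) :
    ccM Φ o (fun t => (R t).card) = finrank ℂ (Submodule.map (Φ o (x o i)) (KerS Φ R x)) := by
  have h1 := hU R hR
  have h2 := hU (Function.update R o (insert i (R o))) (fun t => by
    by_cases hto : t = o
    · subst hto
      rw [Function.update_self]
      intro j hj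
      rcases Finset.mem_insert.1 hj with rfl | hj
      · exact Finset.mem_range.2 hi
      · exact hR t hj
    · rw [Function.update_of_ne hto]
      exact hR t)
  have h3 : (fun t => (Function.update R o (insert i (R o)) t).card) =
      (fun t => (R t).card) + Pi.single o 1 := by
    funext t
    by_cases hto : t = o
    · subst hto
      rw [Function.update_self, Finset.card_insert_of_notMem hio]
      simp
    · rw [Function.update_of_ne hto]
      simp [Pi.single_eq_of_ne hto]
  rw [h3, MNM_insert] at h2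
  have h4 := MNM_rank (KerS Φ R x) (Φ o (x o i))
  unfold ccM
  rw [← h1, ← h2]
  omega

end

theorem MNM (hUGM : UGM_stmt) : MNM_stmt := by
  intro τ E P J _ _ _ _ _ _ _ _ Φ hΦ o t a
  obtain ⟨⟨x, hU⟩, -⟩ := hUGM Φ hΦ (∑ s, a s + 2)
  have hle : ∀ s, a s ≤ ∑ s, a s := fun s => Finset.single_le_sum (fun _ _ => Nat.zero_le _) (Finset.mem_univ s)
  have hle1 : ∀ s, (a + Pi.single t 1 : τ → ℕ) s ≤ ∑ s, a s + 1 := by
    intro s
    have h1 := hle s
    by_cases hst : s = t
    · subst hst
      simp only [Pi.add_apply, Pi.single_eq_same]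
      omega
    · simp only [Pi.add_apply, Pi.single_eq_of_ne hst]
      omega
  have hsub : ∀ s, Finset.range (a s) ⊆ Finset.range ((a + Pi.single t 1 : τ → ℕ) s) := by
    intro s
    apply Finset.range_subset_range.2
    simp only [Pi.add_apply]
    omega
  have hmono := MNM_mono Φ x (fun s => Finset.range (a s)) (fun s => Finset.range ((a + Pi.single t 1 : τ → ℕ) s)) hsub
  have hR0 : ∀ s, Finset.range (a s) ⊆ Finset.range (∑ s, a s + 2) := fun s =>
    Finset.range_subset_range.2 (by have := hle s; omega)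
  have hR1 : ∀ s, Finset.range ((a + Pi.single t 1 : τ → ℕ) s) ⊆ Finset.range (∑ s, a s + 2) := fun s =>
    Finset.range_subset_range.2 (by have := hle1 s; omega)
  have e0 := hU (fun s => Finset.range (a s)) hR0
  have e1 := hU (fun s => Finset.range ((a + Pi.single t 1 : τ → ℕ) s)) hR1
  have c0 := MNM_cc Φ _ x hU (fun s => Finset.range (a s)) hR0 o (∑ s, a s + 1) (by omega)
    (by have := hle o; simp only [Finset.mem_range]; omega)
  have c1 := MNM_cc Φ _ x hU (fun s => Finset.range ((a + Pi.single t 1 : τ → ℕ) s)) hR1 o (∑ s, a s + 1) (by omega)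
    (by have := hle1 o; simp only [Finset.mem_range]; omega)
  simp only [Finset.card_range] at e0 e1 c0 c1
  have hf0 : (fun s => a s) = a := rfl
  have hf1 : (fun s => (a + Pi.single t 1 : τ → ℕ) s) = (a + Pi.single t 1 : τ → ℕ) := rfl
  rw [hf0] at e0 c0
  rw [hf1] at e1 c1
  rw [← e0, ← e1, c0, c1]
  exact ⟨Submodule.finrank_mono hmono, Submodule.finrank_mono (Submodule.map_mono hmono)⟩

end Pool.Agent.SG
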